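import Pool.Agent.H759Z.NU.Null
import Pool.Agent.H922Z.NU.Defs
import Pool.Agent.Helper853.Bk.Scv

set_option autoImplicit false
set_option linter.unusedSectionVars false

open MeasureTheory Complex Metric Set Filter Topology
open scoped ContDiff

namespace Pool.Agent.H759Z.NU

open BK Pool.Agent.H922Z.NU

variable {n : ℕ}

theorem integrableOn_of_closure {Ω : Set (En n)} (hb : Bornology.IsBounded Ω) {g : En n → ℂ}
    (hg : ∀ x ∈ closure Ω, ContinuousAt g x) : IntegrableOn g Ω :=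
  (ContinuousOn.integrableOn_compact hb.isCompact_closure
    (fun x hx => (hg x hx).continuousWithinAt)).mono_set subset_closure

theorem contAt_fderiv {X : Type} [NormedAddCommGroup X] [NormedSpace ℝ X] {g : X → ℂ} {x : X}
    (hg : ContDiffAt ℝ ∞ g x) (v : X) : ContinuousAt (fun y => fderiv ℝ g y v) x := by
  have h1 : ContDiffAt ℝ 0 (fderiv ℝ g) x := hg.fderiv_right (by simp)
  exact h1.continuousAt.clm_apply continuousAt_const

theorem int_fderiv_zero {Ω : Set (En n)} (ho : IsOpen Ω) (hb : Bornology.IsBounded Ω)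
    (G : En n → ℂ) (hG : ∀ x ∈ closure Ω, ContDiffAt ℝ ∞ G x)
    (h0 : ∀ x ∈ frontier Ω, G x = 0) (h1 : ∀ x ∈ frontier Ω, fderiv ℝ G x = 0) (v : En n) :
    ∫ x in Ω, fderiv ℝ G x v = 0 := by
  have hd : ∀ x, HasFDerivAt (Ω.indicator G) (Ω.indicator (fderiv ℝ G) x) x := by
    intro x
    by_cases hx : x ∈ Ω
    · rw [indicator_of_mem hx]
      refine ((hG x (subset_closure hx)).differentiableAt (by simp)).hasFDerivAt.congr_of_eventuallyEq ?_
      filter_upwards [ho.mem_nhds hx] with y hy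
      exact indicator_of_mem hy _
    · rw [indicator_of_notMem hx]
      by_cases hc : x ∈ closure Ω
      · have hf : x ∈ frontier Ω := by
          rw [ho.frontier_eq]; exact ⟨hc, hx⟩
        have h2 := ((hG x hc).differentiableAt (by simp)).hasFDerivAt
        rw [h1 x hf] at h2
        rw [hasFDerivAt_iff_isLittleO] at h2 ⊢
        refine Asymptotics.IsBigO.trans_isLittleO ?_ h2
        refine Asymptotics.IsBigO.of_bound 1 (Eventually.of_forall fun y => ?_)
        rw [indicator_of_notMem hx, h0 x hf]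
        simp only [_root_.zero_apply, sub_zero, one_mul]
        exact norm_indicator_le_norm_self _ _
      · refine (hasFDerivAt_const (0 : ℂ) x).congr_of_eventuallyEq ?_
        filter_upwards [isClosed_closure.isOpen_compl.mem_nhds hc] with y hy
        exact indicator_of_notMem (fun h => hy (subset_closure h)) _
  have e : (fun x => fderiv ℝ (Ω.indicator G) x v) = Ω.indicator (fun x => fderiv ℝ G x v) := by
    funext x
    rw [(hd x).fderiv]
    by_cases hx : x ∈ Ω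
    · simp [indicator_of_mem hx]
    · simp [indicator_of_notMem hx]
  have i1 : Integrable (Ω.indicator G) := by
    rw [integrable_indicator_iff ho.measurableSet]
    exact integrableOn_of_closure hb fun x hx => (hG x hx).continuousAt
  have i2 : Integrable (fun x => fderiv ℝ (Ω.indicator G) x v) := by
    rw [e, integrable_indicator_iff ho.measurableSet]
    exact integrableOn_of_closure hb fun x hx => contAt_fderiv (hG x hx) v
  have := integral_mul_fderiv_eq_neg_fderiv_mul_of_integrable (μ := (volume : Measure (En n)))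
    (f := fun _ => (1 : ℂ)) (g := Ω.indicator G) (v := v) (by simp) (by simpa using i2)
    (by simpa using i1) (fun x _ => differentiableAt_const _)
    (fun x _ => (hd x).differentiableAt)
  simp only [one_mul, fderiv_fun_const, Pi.zero_apply, _root_.zero_apply, zero_mul,
    integral_zero, neg_zero] at this
  rw [e, integral_indicator ho.measurableSet] at this
  exact this

theorem Dv_comp {X : Type} [NormedAddCommGroup X] [NormedSpace ℝ X] (c d : ℂ) (u w : X)
    (φ : ℂ → ℂ) (φ' : ℂ) (f : X → ℂ) (x : X) (hf : DifferentiableAt ℝ f x)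
    (hφ : HasDerivAt φ φ' (f x)) :
    Dv c d u w (fun y => φ (f y)) x = φ' * Dv c d u w f x := by
  have h1 := hφ.complexToReal_fderiv.comp x hf.hasFDerivAt
  have h2 : fderiv ℝ (fun y => φ (f y)) x = _ := h1.fderiv
  unfold Dv
  rw [h2]
  simp
  ring

theorem Dv_sum {X ι : Type} [NormedAddCommGroup X] [NormedSpace ℝ X] [Fintype ι] (c d : ℂ)
    (u w : X) (f : ι → X → ℂ) (x : X) (hf : ∀ i, DifferentiableAt ℝ (f i) x) :
    Dv c d u w (fun y => ∑ i, f i y) x = ∑ i, Dv c d u w (f i) x := by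
  unfold Dv
  rw [fderiv_fun_sum fun i _ => hf i]
  simp only [_root_.sum_apply, Finset.mul_sum, Finset.sum_add_distrib]

/-- coefficients of the operators -/
noncomputable def cI (i : Option (Fin n)) : ℂ := Option.elim i 1 (fun _ => 1 / 2)
/-- coefficients of the operators -/
noncomputable def dI (i : Option (Fin n)) : ℂ := Option.elim i 0 (fun _ => I / 2)
/-- directions of the operators -/
noncomputable def uI (i : Option (Fin n)) : ℝ × En n :=
  Option.elim i (1, 0) (fun k => (0, Pi.single k 1))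
/-- directions of the operators -/
noncomputable def wI (i : Option (Fin n)) : ℝ × En n :=
  Option.elim i (0, 0) (fun k => (0, Pi.single k I))

theorem Dv_hol (i : Option (Fin n)) (h : En n → ℂ) (x : ℝ × En n)
    (hh : DifferentiableAt ℂ h x.2) :
    Dv (cI i) (dI i) (uI i) (wI i) (fun y => h y.2) x = 0 := by
  have h1 := (hh.hasFDerivAt.restrictScalars ℝ).comp x (hasFDerivAt_snd (𝕜 := ℝ) (p := x))
  have h2 : fderiv ℝ (fun y : ℝ × En n => h y.2) x = _ := h1.fderiv
  unfold Dv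
  rw [h2]
  cases i with
  | none => simp [cI, dI, uI, wI]
  | some k =>
    have e : (Pi.single k I : En n) = I • (Pi.single k 1 : En n) := by
      rw [← Pi.single_smul', smul_eq_mul, mul_one]
    simp only [cI, dI, uI, wI, Option.elim, ContinuousLinearMap.comp_apply,
      ContinuousLinearMap.coe_snd', ContinuousLinearMap.coe_restrictScalars', e, map_smul,
      smul_eq_mul]
    linear_combination (fderiv ℂ h x.2 (Pi.single k 1) / 2) * I_mul_I

theorem fderiv_slice (g : ℝ × En n → ℂ) (s : ℝ) (ζ v : En n)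
    (hg : DifferentiableAt ℝ g (s, ζ)) :
    fderiv ℝ (fun y => g (s, y)) ζ v = fderiv ℝ g (s, ζ) (0, v) := by
  have h1 := hg.hasFDerivAt.comp ζ (hasFDerivAt_prodMk_right (𝕜 := ℝ) s ζ)
  have h2 : fderiv ℝ (fun y => g (s, y)) ζ = _ := h1.fderiv
  rw [h2]
  simp

theorem deriv_slice (g : ℝ × En n → ℂ) (s : ℝ) (ζ : En n)
    (hg : DifferentiableAt ℝ g (s, ζ)) :
    HasDerivAt (fun t => g (t, ζ)) (fderiv ℝ g (s, ζ) (1, 0)) s := by
  have h1 := hg.hasFDerivAt.comp s (hasFDerivAt_prodMk_left (𝕜 := ℝ) s ζ)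
  have h2 := h1.hasDerivAt
  simp only [ContinuousLinearMap.comp_apply, ContinuousLinearMap.inl_apply] at h2
  exact h2

theorem Dv_some (k : Fin n) (g : ℝ × En n → ℂ) (s : ℝ) (ζ : En n)
    (hg : DifferentiableAt ℝ g (s, ζ)) :
    Dv (cI (some k)) (dI (some k)) (uI (some k)) (wI (some k)) g (s, ζ) =
      dbar k (fun y => g (s, y)) ζ := by
  unfold Dv dbar
  rw [fderiv_slice g s ζ _ hg, fderiv_slice g s ζ _ hg]
  simp only [cI, dI, uI, wI, Option.elim]
  ring

/-- the homotopy -/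
noncomputable def QQ (q₀ q₁ : Option (Fin n) → En n → ℂ) (j : Option (Fin n)) (x : ℝ × En n) : ℂ :=
  (1 - (x.1 : ℂ)) * q₀ j x.2 + (x.1 : ℂ) * q₁ j x.2

/-- the weights of the support function -/
noncomputable def om (z : En n) (j : Option (Fin n)) (ζ : En n) : ℂ :=
  Option.elim j 1 (fun k => ζ k - z k)

/-- the support function of the homotopy -/
noncomputable def Ph (q₀ q₁ : Option (Fin n) → En n → ℂ) (z : En n) (x : ℝ × En n) : ℂ :=
  ∑ j, om z j x.2 * QQ q₀ q₁ j x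

/-- the scalar factor -/
noncomputable def aa (q₀ q₁ : Option (Fin n) → En n → ℂ) (z : En n) (h : En n → ℂ)
    (x : ℝ × En n) : ℂ :=
  h x.2 * (QQ q₀ q₁ none x ^ 2 * (Ph q₀ q₁ z x ^ (n + 3))⁻¹)

/-- the divergence free field -/
noncomputable def WW (q₀ q₁ : Option (Fin n) → En n → ℂ) (z : En n) (h : En n → ℂ)
    (i : Option (Fin n)) (x : ℝ × En n) : ℂ :=
  aa q₀ q₁ z h x * VV cI dI uI wI (QQ q₀ q₁) i x

theorem contDiff_QQ {q₀ q₁ : Option (Fin n) → En n → ℂ} (h₀ : ∀ j, ContDiff ℝ ∞ (q₀ j))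
    (h₁ : ∀ j, ContDiff ℝ ∞ (q₁ j)) (j : Option (Fin n)) : ContDiff ℝ ∞ (QQ q₀ q₁ j) := by
  have hs : ContDiff ℝ ∞ (fun x : ℝ × En n => (x.1 : ℂ)) :=
    ofRealCLM.contDiff.comp contDiff_fst
  unfold QQ
  exact ((contDiff_const.sub hs).mul ((h₀ j).comp contDiff_snd)).add
    (hs.mul ((h₁ j).comp contDiff_snd))

theorem om_contDiff (z : En n) (j : Option (Fin n)) : ContDiff ℂ ∞ (om z j) := by
  cases j with
  | none => exact contDiff_const
  | some k => exact (contDiff_apply ℂ ℂ k).sub contDiff_const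

theorem contDiff_Ph {q₀ q₁ : Option (Fin n) → En n → ℂ} (h₀ : ∀ j, ContDiff ℝ ∞ (q₀ j))
    (h₁ : ∀ j, ContDiff ℝ ∞ (q₁ j)) (z : En n) : ContDiff ℝ ∞ (Ph q₀ q₁ z) := by
  unfold Ph
  exact ContDiff.sum fun j _ =>
    (((om_contDiff z j).restrict_scalars ℝ).comp contDiff_snd).mul (contDiff_QQ h₀ h₁ j)

theorem Ph_eq (q₀ q₁ : Option (Fin n) → En n → ℂ) (z : En n) (x : ℝ × En n) :
    Ph q₀ q₁ z x = (1 - (x.1 : ℂ)) * PhiG q₀ z x.2 + (x.1 : ℂ) * PhiG q₁ z x.2 := by
  unfold Ph PhiG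
  rw [Fintype.sum_option]
  simp only [om, QQ, Option.elim, mul_add, Finset.mul_sum, Finset.sum_add_distrib]
  have e1 : ∑ j, (x.2 j - z j) * ((1 - (x.1 : ℂ)) * q₀ (some j) x.2) =
      ∑ j, (1 - (x.1 : ℂ)) * (q₀ (some j) x.2 * (x.2 j - z j)) :=
    Finset.sum_congr rfl fun j _ => by ring
  have e2 : ∑ j, (x.2 j - z j) * ((x.1 : ℂ) * q₁ (some j) x.2) =
      ∑ j, (x.1 : ℂ) * (q₁ (some j) x.2 * (x.2 j - z j)) :=
    Finset.sum_congr rfl fun j _ => by ring
  rw [e1, e2]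
  ring

theorem div_WW {q₀ q₁ : Option (Fin n) → En n → ℂ} (h₀ : ∀ j, ContDiff ℝ ∞ (q₀ j))
    (h₁ : ∀ j, ContDiff ℝ ∞ (q₁ j)) (z : En n) (h : En n → ℂ) (x : ℝ × En n)
    (hh : DifferentiableAt ℂ h x.2) (hP : Ph q₀ q₁ z x ≠ 0) :
    ∑ i, Dv (cI i) (dI i) (uI i) (wI i) (WW q₀ q₁ z h i) x = 0 := by
  have dQ : ∀ j, DifferentiableAt ℝ (QQ q₀ q₁ j) x := fun j =>
    (contDiff_QQ h₀ h₁ j).differentiable (by simp) x
  have dP : DifferentiableAt ℝ (Ph q₀ q₁ z) x := (contDiff_Ph h₀ h₁ z).differentiable (by simp) x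
  have dh : DifferentiableAt ℝ (fun y : ℝ × En n => h y.2) x :=
    (hh.restrictScalars ℝ).comp x differentiableAt_snd
  have dom : ∀ j, DifferentiableAt ℂ (om z j) x.2 := fun j =>
    (om_contDiff z j).differentiable (by simp) _
  have d1 : DifferentiableAt ℝ (fun y => QQ q₀ q₁ none y ^ 2) x := (dQ none).pow 2
  have d2 : DifferentiableAt ℝ (fun y => (Ph q₀ q₁ z y ^ (n + 3))⁻¹) x :=
    (dP.pow (n + 3)).inv (pow_ne_zero _ hP)
  refine null_lagrangian cI dI uI wI (QQ q₀ q₁) (contDiff_QQ h₀ h₁) (aa q₀ q₁ z h) x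
    (dh.mul (d1.mul d2))
    (fun j => h x.2 * (Option.elim j (2 * QQ q₀ q₁ none x * (Ph q₀ q₁ z x ^ (n + 3))⁻¹)
      (fun _ => 0) - (n + 3) * QQ q₀ q₁ none x ^ 2 * (Ph q₀ q₁ z x ^ (n + 4))⁻¹ * om z j x.2))
    ?_ ?_
  · intro i
    have e1 : Dv (cI i) (dI i) (uI i) (wI i) (Ph q₀ q₁ z) x =
        ∑ j, om z j x.2 * MM cI dI uI wI (QQ q₀ q₁) x i j := by
      unfold Ph
      rw [Dv_sum _ _ _ _ (fun j y => om z j y.2 * QQ q₀ q₁ j y) x
        (fun j => (((dom j).restrictScalars ℝ).comp x differentiableAt_snd).mul (dQ j))]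
      refine Finset.sum_congr rfl fun j _ => ?_
      rw [Dv_mul _ _ _ _ (fun y : ℝ × En n => om z j y.2) _ x
        (((dom j).restrictScalars ℝ).comp x differentiableAt_snd) (dQ j), Dv_hol i _ x (dom j)]
      simp [MM]
    have e2 : Dv (cI i) (dI i) (uI i) (wI i) (fun y => QQ q₀ q₁ none y ^ 2) x =
        2 * QQ q₀ q₁ none x * MM cI dI uI wI (QQ q₀ q₁) x i none := by
      rw [Dv_comp _ _ _ _ (fun t => t ^ 2) _ _ x (dQ none) (hasDerivAt_pow 2 _)]
      simp [MM]
    have e3 : Dv (cI i) (dI i) (uI i) (wI i) (fun y => (Ph q₀ q₁ z y ^ (n + 3))⁻¹) x =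
        - ((n + 3) * (Ph q₀ q₁ z x ^ (n + 4))⁻¹) *
          ∑ j, om z j x.2 * MM cI dI uI wI (QQ q₀ q₁) x i j := by
      rw [Dv_comp _ _ _ _ (fun t => (t ^ (n + 3))⁻¹) _ _ x dP
        ((hasDerivAt_pow (n + 3) _).inv (pow_ne_zero _ hP)), e1]
      congr 1
      simp only [Nat.add_succ_sub_one]
      push_cast
      field_simp
      ring
    unfold aa
    rw [Dv_mul _ _ _ _ (fun y : ℝ × En n => h y.2) _ x dh (d1.fun_mul d2), Dv_hol i h x hh,
      Dv_mul _ _ _ _ _ _ x d1 d2, e2, e3]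
    simp only [mul_sub, sub_mul, Finset.sum_sub_distrib, Finset.mul_sum]
    rw [Fintype.sum_option (f := fun j => h x.2 * Option.elim j _ _ * _)]
    simp only [Option.elim, mul_zero, zero_mul, Finset.sum_const_zero, add_zero, zero_add, mul_add,
      Finset.mul_sum, sub_eq_add_neg, ← Finset.sum_neg_distrib]
    congr 1
    · ring
    · exact Finset.sum_congr rfl fun j _ => by ring
  · simp only [mul_sub, sub_mul, Finset.sum_sub_distrib]
    rw [Fintype.sum_option (f := fun j => h x.2 * Option.elim j _ _ * _)]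
    have e : ∑ j, h x.2 * ((n + 3) * QQ q₀ q₁ none x ^ 2 * (Ph q₀ q₁ z x ^ (n + 4))⁻¹ *
        om z j x.2) * QQ q₀ q₁ j x = h x.2 * ((n + 3) * QQ q₀ q₁ none x ^ 2 *
          (Ph q₀ q₁ z x ^ (n + 4))⁻¹) * Ph q₀ q₁ z x := by
      have e0 : ∀ t : ℂ, t * Ph q₀ q₁ z x = ∑ j, t * (om z j x.2 * QQ q₀ q₁ j x) := fun t => by
        rw [Ph, Finset.mul_sum]
      rw [e0]
      exact Finset.sum_congr rfl fun j _ => by ring
    rw [e]
    simp only [Option.elim, mul_zero, zero_mul, Finset.sum_const_zero, add_zero,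
      Fintype.card_option, Fintype.card_fin, aa]
    push_cast
    field_simp
    ring

theorem WW_none {q₀ q₁ : Option (Fin n) → En n → ℂ} (h₀ : ∀ j, ContDiff ℝ ∞ (q₀ j))
    (h₁ : ∀ j, ContDiff ℝ ∞ (q₁ j)) (z : En n) (h : En n → ℂ) (s : ℝ) (ζ : En n) :
    WW q₀ q₁ z h none (s, ζ) = KerG (fun j y => QQ q₀ q₁ j (s, y)) z ζ * h ζ := by
  have e1 : VV cI dI uI wI (QQ q₀ q₁) none (s, ζ) = JacG (fun j y => QQ q₀ q₁ j (s, y)) ζ := by
    unfold VV JacG
    congr 1
    ext i j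
    cases i with
    | none => simp
    | some k =>
      rw [Matrix.updateRow_ne (by simp)]
      simp only [MM, Matrix.of_apply, Option.elim]
      exact Dv_some k _ s ζ ((contDiff_QQ h₀ h₁ j).differentiable (by simp) _)
  have e2 : Ph q₀ q₁ z (s, ζ) = PhiG (fun j y => QQ q₀ q₁ j (s, y)) z ζ := by
    unfold Ph PhiG
    rw [Fintype.sum_option]
    simp only [om, Option.elim, one_mul]
    congr 1
    exact Finset.sum_congr rfl fun j _ => mul_comm _ _
  unfold WW aa KerG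
  rw [e1, e2]
  ring

theorem homotopy {q₀ q₁ : Option (Fin n) → En n → ℂ} (h₀ : ∀ j, ContDiff ℝ ∞ (q₀ j))
    (h₁ : ∀ j, ContDiff ℝ ∞ (q₁ j)) {Ω : Set (En n)} (ho : IsOpen Ω)
    (hb : Bornology.IsBounded Ω) (z : En n)
    (f₀ : ∀ ζ ∈ frontier Ω, q₀ none ζ = 0) (f₁ : ∀ ζ ∈ frontier Ω, q₁ none ζ = 0)
    (p₀ : ∀ ζ ∈ closure Ω, 0 < (PhiG q₀ z ζ).re) (p₁ : ∀ ζ ∈ closure Ω, 0 < (PhiG q₁ z ζ).re)
    (h : En n → ℂ) {O : Set (En n)} (hO : IsOpen O) (hsub : closure Ω ⊆ O)
    (hh : DifferentiableOn ℂ h O) :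
    ∫ ζ in Ω, KerG q₀ z ζ * h ζ = ∫ ζ in Ω, KerG q₁ z ζ * h ζ := by
  have hsm : ∀ ζ ∈ closure Ω, ContDiffAt ℝ ∞ h ζ := fun ζ hζ =>
    ((Pool.Agent.Helper853.Bk.contDiffOn_of_differentiableOn hO hh).contDiffAt
      (hO.mem_nhds (hsub hζ))).restrict_scalars ℝ
  have hP : ∀ s ∈ Icc (0 : ℝ) 1, ∀ ζ ∈ closure Ω, Ph q₀ q₁ z (s, ζ) ≠ 0 := by
    intro s hs ζ hζ hz
    have h2 := congrArg Complex.re hz
    rw [Ph_eq] at h2
    simp only [add_re, mul_re, sub_re, one_re, ofReal_re, sub_im, one_im, ofReal_im, sub_self,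
      zero_mul, sub_zero, zero_re] at h2
    have a0 := p₀ ζ hζ
    have a1 := p₁ ζ hζ
    rcases hs.1.eq_or_lt with h3 | h3
    · rw [← h3] at h2; linarith
    · have := mul_pos h3 a1
      have := mul_nonneg (sub_nonneg.2 hs.2) a0.le
      linarith
  have cB : ∀ i, ∀ s ∈ Icc (0 : ℝ) 1, ∀ ζ ∈ closure Ω, ContDiffAt ℝ ∞
      (fun x : ℝ × En n => h x.2 * (Ph q₀ q₁ z x ^ (n + 3))⁻¹ *
        VV cI dI uI wI (QQ q₀ q₁) i x) (s, ζ) := by
    intro i s hs ζ hζ
    refine (ContDiffAt.mul ?_ ?_).mul (contDiff_VV _ _ _ _ _ (contDiff_QQ h₀ h₁) i).contDiffAt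
    · exact ContDiffAt.comp (g := h) (s, ζ) (hsm ζ hζ) contDiffAt_snd
    · exact ((contDiff_Ph h₀ h₁ z).contDiffAt.pow _).inv (pow_ne_zero _ (hP s hs ζ hζ))
  have eW : ∀ i, WW q₀ q₁ z h i = fun x => QQ q₀ q₁ none x * (QQ q₀ q₁ none x *
      (h x.2 * (Ph q₀ q₁ z x ^ (n + 3))⁻¹ * VV cI dI uI wI (QQ q₀ q₁) i x)) := by
    intro i
    funext x
    unfold WW aa
    ring
  have cW : ∀ i, ∀ s ∈ Icc (0 : ℝ) 1, ∀ ζ ∈ closure Ω, ContDiffAt ℝ ∞ (WW q₀ q₁ z h i) (s, ζ) := by
    intro i s hs ζ hζ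
    rw [eW]
    exact (contDiff_QQ h₀ h₁ none).contDiffAt.mul
      ((contDiff_QQ h₀ h₁ none).contDiffAt.mul (cB i s hs ζ hζ))
  have cS : ∀ i, ∀ s ∈ Icc (0 : ℝ) 1, ∀ ζ ∈ closure Ω,
      ContDiffAt ℝ ∞ (fun y => WW q₀ q₁ z h i (s, y)) ζ := fun i s hs ζ hζ =>
    ContDiffAt.comp (g := WW q₀ q₁ z h i) ζ (cW i s hs ζ hζ) (contDiffAt_const.prodMk contDiffAt_id)
  have hzero : ∀ s ∈ Icc (0 : ℝ) 1,
      ∫ ζ in Ω, fderiv ℝ (WW q₀ q₁ z h none) (s, ζ) (1, 0) = 0 := by
    intro s hs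
    have hQ0 : ∀ ζ ∈ frontier Ω, QQ q₀ q₁ none (s, ζ) = 0 := by
      intro ζ hζ
      simp [QQ, f₀ ζ hζ, f₁ ζ hζ]
    have hI : ∀ i v, ∫ ζ in Ω, fderiv ℝ (fun y => WW q₀ q₁ z h i (s, y)) ζ v = 0 := by
      intro i v
      refine int_fderiv_zero ho hb _ (cS i s hs) ?_ ?_ v
      · intro ζ hζ
        rw [eW]
        simp [hQ0 ζ hζ]
      · intro ζ hζ
        ext v
        have hc := frontier_subset_closure hζ
        rw [fderiv_slice _ s ζ _ ((cW i s hs ζ hc).differentiableAt (by simp)), eW,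
          fderiv_fun_mul ((contDiff_QQ h₀ h₁ none).differentiable (by simp) _)
            (((contDiff_QQ h₀ h₁ none).contDiffAt.mul (cB i s hs ζ hc)).differentiableAt
              (by simp))]
        simp [hQ0 ζ hζ]
    have hJ : ∀ i v, IntegrableOn (fun ζ => fderiv ℝ (fun y => WW q₀ q₁ z h i (s, y)) ζ v) Ω :=
      fun i v => integrableOn_of_closure hb fun ζ hζ => contAt_fderiv (cS i s hs ζ hζ) v
    have e : ∀ ζ ∈ Ω, fderiv ℝ (WW q₀ q₁ z h none) (s, ζ) (1, 0) =
        - ∑ k : Fin n, (1 / 2 : ℂ) *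
          (fderiv ℝ (fun y => WW q₀ q₁ z h (some k) (s, y)) ζ (Pi.single k 1) +
            I * fderiv ℝ (fun y => WW q₀ q₁ z h (some k) (s, y)) ζ (Pi.single k I)) := by
      intro ζ hζ
      have hc := subset_closure hζ
      have h2 := div_WW h₀ h₁ z h (s, ζ) ((hh ζ (hsub hc)).differentiableAt
        (hO.mem_nhds (hsub hc))) (hP s hs ζ hc)
      rw [Fintype.sum_option] at h2
      have h3 : ∀ k, Dv (cI (some k)) (dI (some k)) (uI (some k)) (wI (some k))
          (WW q₀ q₁ z h (some k)) (s, ζ) = dbar k (fun y => WW q₀ q₁ z h (some k) (s, y)) ζ :=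
        fun k => Dv_some k _ s ζ ((cW _ s hs ζ hc).differentiableAt (by simp))
      simp only [h3, dbar] at h2
      have h4 : Dv (cI (n := n) none) (dI (n := n) none) (uI none) (wI none)
          (WW q₀ q₁ z h none) (s, ζ) =
          fderiv ℝ (WW q₀ q₁ z h none) (s, ζ) (1, 0) := by
        simp [Dv, cI, dI, uI]
      rw [h4] at h2
      linear_combination h2
    rw [setIntegral_congr_fun ho.measurableSet e, integral_neg, integral_finsetSum]
    · rw [Finset.sum_eq_zero, neg_zero]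
      intro k _
      rw [integral_const_mul, integral_add (hJ _ _) ((hJ _ _).const_mul _), integral_const_mul,
        hI, hI]
      simp
    · intro k _
      exact ((hJ _ _).add ((hJ _ _).const_mul _)).const_mul _
  have hftc : ∀ ζ ∈ Ω, WW q₀ q₁ z h none (1, ζ) - WW q₀ q₁ z h none (0, ζ) =
      ∫ s in Ioc (0 : ℝ) 1, fderiv ℝ (WW q₀ q₁ z h none) (s, ζ) (1, 0) := by
    intro ζ hζ
    have hc := subset_closure hζ
    rw [← intervalIntegral.integral_of_le zero_le_one]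
    symm
    apply intervalIntegral.integral_eq_sub_of_hasDerivAt (f := fun t => WW q₀ q₁ z h none (t, ζ))
    · intro s hs
      rw [uIcc_of_le zero_le_one] at hs
      exact deriv_slice _ s ζ ((cW _ s hs ζ hc).differentiableAt (by simp))
    · apply ContinuousOn.intervalIntegrable
      rw [uIcc_of_le zero_le_one]
      intro s hs
      exact (ContinuousAt.comp (f := fun t : ℝ => (t, ζ)) (contAt_fderiv (cW _ s hs ζ hc) (1, 0))
        (continuousAt_id.prodMk continuousAt_const)).continuousWithinAt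
  have hint : Integrable (Function.uncurry fun (ζ : En n) (s : ℝ) =>
      fderiv ℝ (WW q₀ q₁ z h none) (s, ζ) (1, 0))
      (((volume : Measure (En n)).restrict Ω).prod ((volume : Measure ℝ).restrict (Ioc 0 1))) := by
    rw [Measure.prod_restrict]
    have hK : IsCompact (closure Ω ×ˢ Icc (0 : ℝ) 1) := hb.isCompact_closure.prod isCompact_Icc
    refine (ContinuousOn.integrableOn_compact hK ?_).mono_set
      (prod_mono subset_closure Ioc_subset_Icc_self)
    rintro ⟨ζ, s⟩ ⟨hζ, hs⟩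
    exact (ContinuousAt.comp (f := fun p : En n × ℝ => (p.2, p.1)) (x := (ζ, s))
      (contAt_fderiv (cW none s hs ζ hζ) (1, 0))
      (continuousAt_snd.prodMk continuousAt_fst)).continuousWithinAt
  have hsw := integral_integral_swap hint
  have hfin : ∫ ζ in Ω, (WW q₀ q₁ z h none (1, ζ) - WW q₀ q₁ z h none (0, ζ)) = 0 := by
    rw [setIntegral_congr_fun ho.measurableSet hftc, hsw,
      setIntegral_congr_fun measurableSet_Ioc (fun s hs => hzero s (Ioc_subset_Icc_self hs))]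
    simp
  rw [integral_sub (integrableOn_of_closure hb fun ζ hζ =>
      (cS none 1 (right_mem_Icc.2 zero_le_one) ζ hζ).continuousAt)
    (integrableOn_of_closure hb fun ζ hζ =>
      (cS none 0 (left_mem_Icc.2 zero_le_one) ζ hζ).continuousAt)] at hfin
  simp only [WW_none h₀ h₁] at hfin
  have e0 : (fun j y => QQ q₀ q₁ j (0, y)) = q₀ := by
    funext j y; simp [QQ]
  have e1 : (fun j y => QQ q₀ q₁ j (1, y)) = q₁ := by
    funext j y; simp [QQ]
  rw [e0, e1] at hfin
  linear_combination -hfin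

end Pool.Agent.H759Z.NU
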