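import Mathlib

set_option autoImplicit false
set_option linter.unusedSectionVars false

open scoped ContDiff
open Matrix

namespace Pool.Agent.H759Z.NU

section Null

variable {X : Type} [NormedAddCommGroup X] [NormedSpace ℝ X]
variable {ι : Type} [Fintype ι] [DecidableEq ι]

/-- a first order constant coefficient operator -/
noncomputable def Dv (c d : ℂ) (u w : X) (g : X → ℂ) (x : X) : ℂ :=
  c * fderiv ℝ g x u + d * fderiv ℝ g x w

theorem fderiv_det (A : X → Matrix ι ι ℂ) (x : X)
    (hA : ∀ i j, DifferentiableAt ℝ (fun y => A y i j) x) (v : X) :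
    fderiv ℝ (fun y => (A y).det) x v =
      ∑ i, ((A x).updateRow i (fun j => fderiv ℝ (fun y => A y i j) x v)).det := by
  have e : (fun y => (A y).det) =
      fun y => ∑ σ : Equiv.Perm ι, ((Equiv.Perm.sign σ : ℤ) : ℂ) * ∏ i, A y i (σ i) := by
    funext y
    rw [← det_transpose, det_apply']
    rfl
  have hp : ∀ σ : Equiv.Perm ι, HasFDerivAt (fun y => ∏ i, A y i (σ i))
      (∑ i, (∏ k ∈ Finset.univ.erase i, A x k (σ k)) • fderiv ℝ (fun y => A y i (σ i)) x) x := by
    intro σ
    exact HasFDerivAt.finsetProd (u := Finset.univ) (g := fun i y => A y i (σ i))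
      (fun i _ => (hA i (σ i)).hasFDerivAt)
  have hs := HasFDerivAt.fun_sum (u := Finset.univ)
    (fun (σ : Equiv.Perm ι) _ => (hp σ).const_mul ((Equiv.Perm.sign σ : ℤ) : ℂ))
  rw [e, hs.fderiv]
  simp only [_root_.sum_apply, _root_.smul_apply, smul_eq_mul,
    Finset.mul_sum]
  rw [Finset.sum_comm]
  refine Finset.sum_congr rfl fun i _ => ?_
  rw [← det_transpose, det_apply']
  refine Finset.sum_congr rfl fun σ _ => ?_
  congr 1
  simp only [transpose_apply]
  rw [← Finset.mul_prod_erase Finset.univ _ (Finset.mem_univ i), updateRow_self, mul_comm]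
  congr 1
  refine Finset.prod_congr rfl fun k hk => ?_
  rw [updateRow_ne (Finset.ne_of_mem_erase hk)]

theorem diff_det (A : X → Matrix ι ι ℂ) (x : X)
    (hA : ∀ i j, DifferentiableAt ℝ (fun y => A y i j) x) :
    DifferentiableAt ℝ (fun y => (A y).det) x := by
  simp only [det_apply']
  refine DifferentiableAt.fun_sum fun σ _ => DifferentiableAt.const_mul ?_ _
  exact (HasFDerivAt.finsetProd (u := Finset.univ) (g := fun i y => A y (σ i) i)
    (fun i _ => (hA (σ i) i).hasFDerivAt)).differentiableAt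

theorem contDiff_det (A : X → Matrix ι ι ℂ)
    (hA : ∀ i j, ContDiff ℝ ∞ (fun y => A y i j)) :
    ContDiff ℝ ∞ (fun y => (A y).det) := by
  simp only [det_apply']
  refine ContDiff.sum fun σ _ => ContDiff.mul contDiff_const ?_
  exact contDiff_prod fun i _ => hA _ _

theorem Dv_det (c d : ℂ) (u w : X) (A : X → Matrix ι ι ℂ) (x : X)
    (hA : ∀ i j, DifferentiableAt ℝ (fun y => A y i j) x) :
    Dv c d u w (fun y => (A y).det) x =
      ∑ i, ((A x).updateRow i (fun j => Dv c d u w (fun y => A y i j) x)).det := by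
  unfold Dv
  rw [fderiv_det A x hA, fderiv_det A x hA, Finset.mul_sum, Finset.mul_sum,
    ← Finset.sum_add_distrib]
  refine Finset.sum_congr rfl fun i _ => ?_
  rw [← det_updateRow_smul, ← det_updateRow_smul, ← det_updateRow_add]
  rfl

theorem contDiff_Dv (c d : ℂ) (u w : X) (g : X → ℂ) (hg : ContDiff ℝ ∞ g) :
    ContDiff ℝ ∞ (Dv c d u w g) := by
  have h1 : ContDiff ℝ ∞ (fderiv ℝ g) := hg.fderiv_right (m := ∞) (by simp)
  unfold Dv
  exact (contDiff_const.mul (h1.clm_apply contDiff_const)).add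
    (contDiff_const.mul (h1.clm_apply contDiff_const))

theorem fderiv_Dv (c d : ℂ) (u w : X) (g : X → ℂ) (hg : ContDiff ℝ ∞ g) (x v : X) :
    fderiv ℝ (Dv c d u w g) x v =
      c * fderiv ℝ (fderiv ℝ g) x v u + d * fderiv ℝ (fderiv ℝ g) x v w := by
  have h1 : ContDiff ℝ ∞ (fderiv ℝ g) := hg.fderiv_right (m := ∞) (by simp)
  have h2 : HasFDerivAt (fderiv ℝ g) (fderiv ℝ (fderiv ℝ g) x) x :=
    (h1.differentiable (by simp) x).hasFDerivAt
  have h3 : ∀ a : X, HasFDerivAt (fun y => fderiv ℝ g y a)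
      ((ContinuousLinearMap.apply ℝ ℂ a).comp (fderiv ℝ (fderiv ℝ g) x)) x := fun a =>
    (ContinuousLinearMap.apply ℝ ℂ a).hasFDerivAt.comp x h2
  have h4 := ((h3 u).const_mul c).add ((h3 w).const_mul d)
  have h5 : fderiv ℝ (Dv c d u w g) x = _ := h4.fderiv
  rw [h5]
  simp

theorem Dv_comm (c d c' d' : ℂ) (u w u' w' : X) (g : X → ℂ) (hg : ContDiff ℝ ∞ g) (x : X) :
    Dv c d u w (Dv c' d' u' w' g) x = Dv c' d' u' w' (Dv c d u w g) x := by
  have hs : IsSymmSndFDerivAt ℝ g x :=
    hg.contDiffAt.isSymmSndFDerivAt (by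
      rw [minSmoothness_of_isRCLikeNormedField]; exact WithTop.coe_le_coe.2 (le_top (a := (2 : ℕ∞))))
  conv_lhs => unfold Dv
  conv_rhs => unfold Dv
  have e1 := fderiv_Dv c' d' u' w' g hg x
  have e2 := fderiv_Dv c d u w g hg x
  unfold Dv at e1 e2
  rw [e1, e1, e2, e2, hs.eq u u', hs.eq u w', hs.eq w u', hs.eq w w']
  ring

theorem Dv_mul (c d : ℂ) (u w : X) (f g : X → ℂ) (x : X) (hf : DifferentiableAt ℝ f x)
    (hg : DifferentiableAt ℝ g x) :
    Dv c d u w (fun y => f y * g y) x = Dv c d u w f x * g x + f x * Dv c d u w g x := by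
  unfold Dv
  rw [fderiv_fun_mul hf hg]
  simp only [_root_.add_apply, _root_.smul_apply, smul_eq_mul]
  ring

/-- the matrix of first derivatives -/
noncomputable def MM (c d : ι → ℂ) (u w : ι → X) (Q : ι → X → ℂ) (y : X) : Matrix ι ι ℂ :=
  Matrix.of fun i j => Dv (c i) (d i) (u i) (w i) (Q j) y

/-- the cofactor fields -/
noncomputable def VV (c d : ι → ℂ) (u w : ι → X) (Q : ι → X → ℂ) (i : ι) (y : X) : ℂ :=
  ((MM c d u w Q y).updateRow i (fun j => Q j y)).det

theorem contDiff_entry (c d : ι → ℂ) (u w : ι → X) (Q : ι → X → ℂ)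
    (hQ : ∀ j, ContDiff ℝ ∞ (Q j)) (i k j : ι) :
    ContDiff ℝ ∞ (fun y => ((MM c d u w Q y).updateRow i (fun j => Q j y)) k j) := by
  by_cases h : k = i
  · subst h
    simp only [updateRow_self]
    exact hQ j
  · simp only [updateRow_ne h, MM, of_apply]
    exact contDiff_Dv _ _ _ _ _ (hQ j)

theorem contDiff_VV (c d : ι → ℂ) (u w : ι → X) (Q : ι → X → ℂ)
    (hQ : ∀ j, ContDiff ℝ ∞ (Q j)) (i : ι) : ContDiff ℝ ∞ (VV c d u w Q i) :=
  contDiff_det _ (contDiff_entry c d u w Q hQ i)

theorem det_two_rows (M : Matrix ι ι ℂ) {i k : ι} (h : i ≠ k) (a b : ι → ℂ) :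
    ((M.updateRow i a).updateRow k b).det = - ((M.updateRow k a).updateRow i b).det := by
  have e : (M.updateRow i a).updateRow k b =
      ((M.updateRow k a).updateRow i b).submatrix (Equiv.swap i k) id := by
    ext r j
    simp only [submatrix_apply, id]
    by_cases h1 : r = k
    · subst h1
      rw [Equiv.swap_apply_right, updateRow_self, updateRow_self]
    · by_cases h2 : r = i
      · subst h2
        rw [Equiv.swap_apply_left, updateRow_ne h1, updateRow_self, updateRow_ne (Ne.symm h),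
          updateRow_self]
      · rw [Equiv.swap_apply_of_ne_of_ne h2 h1, updateRow_ne h1, updateRow_ne h2,
          updateRow_ne h2, updateRow_ne h1]
  rw [e, det_permute, Equiv.Perm.sign_swap h]
  simp

theorem piola (c d : ι → ℂ) (u w : ι → X) (Q : ι → X → ℂ)
    (hQ : ∀ j, ContDiff ℝ ∞ (Q j)) (x : X) :
    ∑ i, Dv (c i) (d i) (u i) (w i) (VV c d u w Q i) x =
      (Fintype.card ι : ℂ) * (MM c d u w Q x).det := by
  obtain ⟨T, hT⟩ : ∃ T : ι → ι → ℂ, T = fun i k =>
      (((MM c d u w Q x).updateRow i (fun j => Q j x)).updateRow k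
        (fun j => Dv (c i) (d i) (u i) (w i) (Dv (c k) (d k) (u k) (w k) (Q j)) x)).det :=
    ⟨_, rfl⟩
  have h1 : ∀ i, Dv (c i) (d i) (u i) (w i) (VV c d u w Q i) x =
      (MM c d u w Q x).det + ∑ k, if k = i then 0 else T i k := by
    intro i
    have := Dv_det (c i) (d i) (u i) (w i)
      (fun y => (MM c d u w Q y).updateRow i (fun j => Q j y)) x
      (fun k j => (contDiff_entry c d u w Q hQ i k j).differentiable (by simp) x)
    unfold VV
    rw [this, ← Finset.add_sum_erase _ _ (Finset.mem_univ i),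
      ← Finset.add_sum_erase _ _ (Finset.mem_univ i), if_pos rfl, zero_add]
    congr 1
    · congr 1
      ext r j
      by_cases h : r = i
      · subst h
        simp [MM]
      · simp [updateRow_ne h]
    · refine Finset.sum_congr rfl fun k hk => ?_
      have hk' := Finset.ne_of_mem_erase hk
      rw [if_neg hk', hT]
      simp only [updateRow_ne hk', MM, of_apply]
  have h2 : ∀ i k, i ≠ k → T i k = - T k i := by
    intro i k hik
    rw [hT]
    simp only
    rw [det_two_rows _ hik]
    congr 3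
    funext j
    exact Dv_comm _ _ _ _ _ _ _ _ _ (hQ j) x
  have h3 : ∑ i, ∑ k, (if k = i then 0 else T i k) = 0 := by
    have h4 : ∑ i, ∑ k, (if k = i then 0 else T i k) =
        - ∑ i, ∑ k, (if k = i then 0 else T i k) := by
      conv_rhs => rw [Finset.sum_comm]
      rw [← Finset.sum_neg_distrib]
      refine Finset.sum_congr rfl fun i _ => ?_
      rw [← Finset.sum_neg_distrib]
      refine Finset.sum_congr rfl fun k _ => ?_
      by_cases h : k = i
      · simp [h]
      · rw [if_neg h, if_neg (Ne.symm h), h2 i k (Ne.symm h)]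
    linear_combination h4 / 2
  simp only [h1, Finset.sum_add_distrib, h3, Finset.sum_const, Finset.card_univ, nsmul_eq_mul,
    add_zero]

theorem cramer_sum (M : Matrix ι ι ℂ) (α q : ι → ℂ) :
    ∑ i, (∑ j, α j * M i j) * (M.updateRow i q).det = M.det * ∑ j, α j * q j := by
  have h1 := mulVec_cramer Mᵀ q
  simp only [Finset.sum_mul]
  rw [Finset.sum_comm, Finset.mul_sum]
  refine Finset.sum_congr rfl fun j _ => ?_
  have h2 := congrFun h1 j
  simp only [mulVec, dotProduct, transpose_apply, cramer_transpose_apply, det_transpose,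
    Pi.smul_apply, smul_eq_mul] at h2
  calc ∑ i, α j * M i j * (M.updateRow i q).det
      = α j * ∑ i, M i j * (M.updateRow i q).det := by
        rw [Finset.mul_sum]; exact Finset.sum_congr rfl fun i _ => by ring
    _ = _ := by rw [h2]; ring

theorem null_lagrangian (c d : ι → ℂ) (u w : ι → X) (Q : ι → X → ℂ)
    (hQ : ∀ j, ContDiff ℝ ∞ (Q j)) (a : X → ℂ) (x : X) (ha : DifferentiableAt ℝ a x)
    (α : ι → ℂ)
    (hDa : ∀ i, Dv (c i) (d i) (u i) (w i) a x = ∑ j, α j * MM c d u w Q x i j)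
    (hE : ∑ j, α j * Q j x = - (Fintype.card ι : ℂ) * a x) :
    ∑ i, Dv (c i) (d i) (u i) (w i) (fun y => a y * VV c d u w Q i y) x = 0 := by
  have h1 : ∀ i, Dv (c i) (d i) (u i) (w i) (fun y => a y * VV c d u w Q i y) x =
      (∑ j, α j * MM c d u w Q x i j) * VV c d u w Q i x +
        a x * Dv (c i) (d i) (u i) (w i) (VV c d u w Q i) x := by
    intro i
    rw [Dv_mul _ _ _ _ _ _ _ ha ((contDiff_VV c d u w Q hQ i).differentiable (by simp) x), hDa]
  simp only [h1, Finset.sum_add_distrib]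
  rw [← Finset.mul_sum, piola c d u w Q hQ x]
  unfold VV
  rw [cramer_sum, hE]
  ring

end Null

end Pool.Agent.H759Z.NU
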