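import Pool.Agent.H759Z.NU.Hom

set_option autoImplicit false
set_option linter.unusedSectionVars false

open MeasureTheory Complex Metric Set Filter Topology
open scoped ContDiff ComplexConjugate

namespace Pool.Agent.H759Z.NU

open BK Pool.Agent.H922Z.NU

variable {n : ℕ}

/-- squared Euclidean norm -/
noncomputable def Nq (w : En n) : ℝ := ∑ j, ((w j).re ^ 2 + (w j).im ^ 2)

theorem Nq_contDiff : ContDiff ℝ ∞ (Nq : En n → ℝ) := by
  unfold Nq
  refine ContDiff.sum fun j _ => ContDiff.add ?_ ?_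
  · exact (reCLM.contDiff.comp (contDiff_apply ℝ ℂ j)).pow 2
  · exact (imCLM.contDiff.comp (contDiff_apply ℝ ℂ j)).pow 2

theorem Nq_nonneg (w : En n) : 0 ≤ Nq w := Finset.sum_nonneg fun j _ => by positivity

theorem Nq_smul (r : ℝ) (w : En n) : Nq (r • w) = r ^ 2 * Nq w := by
  unfold Nq
  rw [Finset.mul_sum]
  refine Finset.sum_congr rfl fun j _ => ?_
  simp
  ring

theorem one_le_Nq (w : En n) (h : 1 ≤ ‖w‖) : 1 ≤ Nq w := by
  have h1 : ∃ j, 1 ≤ ‖w j‖ := by
    by_contra hcon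
    push Not at hcon
    have := (pi_norm_lt_iff (zero_lt_one)).2 hcon
    linarith
  obtain ⟨j, hj⟩ := h1
  have h2 : (w j).re ^ 2 + (w j).im ^ 2 ≤ Nq w :=
    Finset.single_le_sum (f := fun j => (w j).re ^ 2 + (w j).im ^ 2)
      (fun i _ => by positivity) (Finset.mem_univ j)
  have h3 : ‖w j‖ ^ 2 = (w j).re ^ 2 + (w j).im ^ 2 := by
    rw [Complex.sq_norm, normSq_apply]; ring
  nlinarith [norm_nonneg (w j)]

theorem Nq_coe (w : En n) : ((Nq w : ℝ) : ℂ) = ∑ j, conj (w j) * w j := by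
  unfold Nq
  push_cast
  refine Finset.sum_congr rfl fun j _ => ?_
  rw [← normSq_eq_conj_mul_self, normSq_apply]
  push_cast
  ring

theorem fderiv_Nq (w v : En n) :
    fderiv ℝ Nq w v = ∑ j, (2 * (w j).re * (v j).re + 2 * (w j).im * (v j).im) := by
  have h1 : ∀ j, HasFDerivAt (fun y : En n => (y j).re)
      (reCLM.comp (ContinuousLinearMap.proj (R := ℝ) (φ := fun _ : Fin n => ℂ) j)) w := fun j =>
    (reCLM.comp (ContinuousLinearMap.proj (R := ℝ) (φ := fun _ : Fin n => ℂ) j)).hasFDerivAt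
  have h2 : ∀ j, HasFDerivAt (fun y : En n => (y j).im)
      (imCLM.comp (ContinuousLinearMap.proj (R := ℝ) (φ := fun _ : Fin n => ℂ) j)) w := fun j =>
    (imCLM.comp (ContinuousLinearMap.proj (R := ℝ) (φ := fun _ : Fin n => ℂ) j)).hasFDerivAt
  have h3 := HasFDerivAt.fun_sum (u := Finset.univ)
    (fun j _ => ((h1 j).pow 2).fun_add ((h2 j).pow 2))
  have h4 : fderiv ℝ Nq w = _ := h3.fderiv
  rw [h4]
  simp

/-- the model -/
noncomputable def qm (β : ℝ → ℝ) (z : En n) (j : Option (Fin n)) (ζ : En n) : ℂ :=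
  Option.elim j ((β (Nq (ζ - z)) : ℝ) : ℂ) (fun k => conj (ζ k - z k))

theorem qm_contDiff {β : ℝ → ℝ} (hβ : ContDiff ℝ ∞ β) (z : En n) (j : Option (Fin n)) :
    ContDiff ℝ ∞ (qm β z j) := by
  cases j with
  | none =>
    exact ofRealCLM.contDiff.comp (hβ.comp (Nq_contDiff.comp (contDiff_id.sub contDiff_const)))
  | some k =>
    exact conjCLE.contDiff.comp ((contDiff_apply ℝ ℂ k).sub contDiff_const)

theorem PhiG_qm (β : ℝ → ℝ) (z ζ : En n) :
    PhiG (qm β z) z ζ = ((β (Nq (ζ - z)) + Nq (ζ - z) : ℝ) : ℂ) := by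
  unfold PhiG
  rw [ofReal_add, Nq_coe]
  rfl

theorem dbar_qm_none {β : ℝ → ℝ} (hβ : ContDiff ℝ ∞ β) (z ζ : En n) (k : Fin n) :
    dbar k (qm β z none) ζ = ((deriv β (Nq (ζ - z)) : ℝ) : ℂ) * (ζ k - z k) := by
  have h1 : HasFDerivAt (fun y : En n => Nq (y - z)) (fderiv ℝ Nq (ζ - z)) ζ := by
    have := ((Nq_contDiff (n := n)).differentiable (by simp) (ζ - z)).hasFDerivAt.comp ζ
      ((hasFDerivAt_id ζ).sub_const z)
    rw [ContinuousLinearMap.comp_id] at this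
    exact this
  have h2 := (hβ.differentiable (by simp) (Nq (ζ - z))).hasDerivAt.comp_hasFDerivAt ζ h1
  have h3 := ofRealCLM.hasFDerivAt.comp ζ h2
  have h4 : fderiv ℝ (qm β z none) ζ = _ := h3.fderiv
  have e1 : fderiv ℝ Nq (ζ - z) (Pi.single k 1) = 2 * (ζ k - z k).re := by
    rw [fderiv_Nq, Finset.sum_eq_single k]
    · simp
    · intro j _ hj
      simp [Pi.single_eq_of_ne hj]
    · simp
  have e2 : fderiv ℝ Nq (ζ - z) (Pi.single k I) = 2 * (ζ k - z k).im := by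
    rw [fderiv_Nq, Finset.sum_eq_single k]
    · simp
    · intro j _ hj
      simp [Pi.single_eq_of_ne hj]
    · simp
  unfold dbar
  rw [h4]
  simp only [ContinuousLinearMap.comp_apply, _root_.smul_apply, e1, e2, smul_eq_mul,
    ofRealCLM_apply]
  conv_rhs => rw [← re_add_im (ζ k - z k)]
  push_cast
  ring

theorem dbar_qm_some (β : ℝ → ℝ) (z ζ : En n) (k j : Fin n) :
    dbar k (qm β z (some j)) ζ = if k = j then 1 else 0 := by
  have h1 : HasFDerivAt (fun y : En n => y j - z j)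
      (ContinuousLinearMap.proj (R := ℝ) (φ := fun _ : Fin n => ℂ) j) ζ :=
    (ContinuousLinearMap.proj (R := ℝ) (φ := fun _ : Fin n => ℂ) j).hasFDerivAt.sub_const _
  have h3 := conjCLE.hasFDerivAt.comp ζ h1
  have h4 : fderiv ℝ (qm β z (some j)) ζ = _ := h3.fderiv
  unfold dbar
  rw [h4]
  by_cases h : k = j
  · subst h
    simp
    norm_num
  · simp [h, Ne.symm h]

theorem det_option (b : ℂ) (r c : Fin n → ℂ) (M : Matrix (Option (Fin n)) (Option (Fin n)) ℂ)
    (h1 : M none none = b) (h2 : ∀ j, M none (some j) = r j) (h3 : ∀ k, M (some k) none = c k)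
    (h4 : ∀ k j, M (some k) (some j) = if k = j then 1 else 0) :
    M.det = b - ∑ j, r j * c j := by
  have e : M.submatrix (Equiv.optionEquivSumPUnit.{0} (Fin n)).symm
      (Equiv.optionEquivSumPUnit.{0} (Fin n)).symm =
      Matrix.fromBlocks 1 (Matrix.of fun k _ => c k) (Matrix.of fun _ j => r j)
        (Matrix.of fun _ _ => b) := by
    ext i j
    rcases i with i | i <;> rcases j with j | j <;>
      simp [h1, h2, h3, h4, Matrix.one_apply]
  rw [← Matrix.det_submatrix_equiv_self (Equiv.optionEquivSumPUnit.{0} (Fin n)).symm, e,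
    Matrix.det_fromBlocks_one₁₁, Matrix.det_unique]
  simp [Matrix.mul_apply]

theorem JacG_qm {β : ℝ → ℝ} (hβ : ContDiff ℝ ∞ β) (z ζ : En n) :
    JacG (qm β z) ζ =
      ((β (Nq (ζ - z)) - deriv β (Nq (ζ - z)) * Nq (ζ - z) : ℝ) : ℂ) := by
  unfold JacG
  rw [det_option ((β (Nq (ζ - z)) : ℝ) : ℂ) (fun j => conj (ζ j - z j))
    (fun k => ((deriv β (Nq (ζ - z)) : ℝ) : ℂ) * (ζ k - z k)) _ rfl (fun _ => rfl)
    (fun k => dbar_qm_none hβ z ζ k) (fun k j => dbar_qm_some β z ζ k j),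
    ofReal_sub, ofReal_mul, Nq_coe, Finset.mul_sum]
  congr 1
  refine Finset.sum_congr rfl fun j _ => ?_
  simp only [Pi.sub_apply]
  ring

/-- the radial profile of the kernel -/
noncomputable def kk (n : ℕ) (β : ℝ → ℝ) (t : ℝ) : ℝ :=
  β t ^ 2 * (β t - deriv β t * t) / (β t + t) ^ (n + 3)

theorem KerG_qm {β : ℝ → ℝ} (hβ : ContDiff ℝ ∞ β) (z ζ : En n) :
    KerG (qm β z) z ζ = ((kk n β (Nq (ζ - z)) : ℝ) : ℂ) := by
  unfold KerG kk
  rw [JacG_qm hβ, PhiG_qm]
  simp only [qm, Option.elim]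
  push_cast
  ring

/-- the basic profile -/
noncomputable def b0 (t : ℝ) : ℝ := expNegInvGlue (1 - t)

/-- the scaled profile -/
noncomputable def bE (ε t : ℝ) : ℝ := ε ^ 2 * b0 ((ε⁻¹) ^ 2 * t)

theorem b0_contDiff : ContDiff ℝ ∞ b0 :=
  expNegInvGlue.contDiff.comp (contDiff_const.sub contDiff_id)

theorem bE_contDiff (ε : ℝ) : ContDiff ℝ ∞ (bE ε) :=
  contDiff_const.mul (b0_contDiff.comp (contDiff_const.mul contDiff_id))

theorem b0_nonneg (t : ℝ) : 0 ≤ b0 t := expNegInvGlue.nonneg _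

theorem b0_zero {t : ℝ} (h : 1 ≤ t) : b0 t = 0 := expNegInvGlue.zero_of_nonpos (by linarith)

theorem b0_pos : 0 < b0 0 := expNegInvGlue.pos_of_pos (by norm_num)

theorem b0_add_pos {t : ℝ} (h : 0 ≤ t) : 0 < b0 t + t := by
  rcases h.eq_or_lt with h | h
  · rw [← h, add_zero]; exact b0_pos
  · linarith [b0_nonneg t]

theorem deriv_b0 (t : ℝ) : deriv b0 t ≤ 0 := by
  have : Antitone b0 := fun a b h => expNegInvGlue.monotone (by linarith)
  exact this.deriv_nonpos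

theorem kk_bE {ε : ℝ} (hε : 0 < ε) {t : ℝ} (ht : 0 ≤ t) :
    kk n (bE ε) t = (ε ^ (2 * n))⁻¹ * kk n b0 ((ε⁻¹) ^ 2 * t) := by
  have h1 : HasDerivAt (bE ε) (ε ^ 2 * (deriv b0 ((ε⁻¹) ^ 2 * t) * (ε⁻¹) ^ 2)) t := by
    have h2 := (b0_contDiff.differentiable (by simp) ((ε⁻¹) ^ 2 * t)).hasDerivAt.comp t
      ((hasDerivAt_id t).const_mul ((ε⁻¹) ^ 2))
    rw [mul_one] at h2
    exact h2.const_mul (ε ^ 2)
  unfold kk
  rw [h1.deriv]
  unfold bE
  have hp := b0_add_pos (t := (ε⁻¹) ^ 2 * t) (by positivity)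
  have e : ε ^ 2 * b0 ((ε⁻¹) ^ 2 * t) + t = ε ^ 2 * (b0 ((ε⁻¹) ^ 2 * t) + (ε⁻¹) ^ 2 * t) := by
    field_simp
  rw [e, mul_pow]
  generalize b0 ((ε⁻¹) ^ 2 * t) + (ε⁻¹) ^ 2 * t = P at hp
  generalize b0 ((ε⁻¹) ^ 2 * t) = B
  generalize deriv b0 ((ε⁻¹) ^ 2 * t) = D
  field_simp
  ring

/-- the model kernel -/
noncomputable def k0 (w : En n) : ℝ := kk n b0 (Nq w)

theorem k0_nonneg (w : En n) : 0 ≤ k0 w := by
  unfold k0 kk
  have h1 := b0_nonneg (Nq w)
  have h2 := deriv_b0 (Nq w)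
  have h3 := Nq_nonneg w
  have h4 := b0_add_pos h3
  have h5 : 0 ≤ b0 (Nq w) - deriv b0 (Nq w) * Nq w := by nlinarith
  positivity

theorem k0_continuous : Continuous (k0 : En n → ℝ) := by
  unfold k0 kk
  have c1 : Continuous (Nq : En n → ℝ) := Nq_contDiff.continuous
  have c2 : Continuous fun w : En n => b0 (Nq w) := b0_contDiff.continuous.comp c1
  have c3 : Continuous fun w : En n => deriv b0 (Nq w) :=
    (b0_contDiff.continuous_deriv (by simp)).comp c1
  exact ((c2.pow 2).mul (c2.sub (c3.mul c1))).div ((c2.add c1).pow _)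
    fun w => pow_ne_zero _ (b0_add_pos (Nq_nonneg w)).ne'

theorem k0_zero (w : En n) (h : 1 ≤ ‖w‖) : k0 w = 0 := by
  unfold k0 kk
  rw [b0_zero (one_le_Nq w h)]
  simp

theorem k0_int_pos : 0 < ∫ w : En n, k0 w := by
  apply Continuous.integral_pos_of_hasCompactSupport_nonneg_nonzero (x := 0) k0_continuous
  · apply HasCompactSupport.of_support_subset_isCompact (isCompact_closedBall (0 : En n) 1)
    intro w hw
    rw [mem_closedBall_zero_iff]
    by_contra h
    exact hw (k0_zero w (not_le.1 h).le)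
  · exact k0_nonneg
  · have h0 : Nq (0 : En n) = 0 := by simp [Nq]
    unfold k0 kk
    rw [h0]
    have := b0_pos
    simp only [mul_zero, sub_zero, add_zero]
    positivity

theorem one_le_scaled {ε : ℝ} (hε : 0 < ε) {w : En n} (h : ε ≤ ‖w‖) : 1 ≤ ‖ε⁻¹ • w‖ := by
  rw [norm_smul, norm_inv, Real.norm_of_nonneg hε.le, inv_mul_eq_div, le_div_iff₀ hε, one_mul]
  exact h

theorem t3 : T3 := by
  intro n
  refine ⟨((∫ w : En n, k0 w : ℝ) : ℂ), ofReal_ne_zero.2 k0_int_pos.ne', ?_⟩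
  intro q hq Ω ho hb z hz hf hp h O hO hsub hh
  obtain ⟨c, hc⟩ : ∃ c, c = ∫ w : En n, k0 w := ⟨_, rfl⟩
  have hc0 : 0 < c := hc ▸ k0_int_pos
  rw [← hc]
  have hcont : ∀ ζ ∈ closure Ω, ContinuousAt h ζ := fun ζ hζ =>
    ((hh ζ (hsub hζ)).differentiableAt (hO.mem_nhds (hsub hζ))).continuousAt
  apply eq_of_norm_sub_le_zero
  refine le_of_forall_pos_le_add fun η hη => ?_
  rw [zero_add]
  have hη' : 0 < η / c := div_pos hη hc0
  have hev : ∀ᶠ ζ in 𝓝 z, ζ ∈ Ω ∧ ‖h ζ - h z‖ ≤ η / c := by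
    refine Filter.Eventually.and (ho.mem_nhds hz) ?_
    have := (hcont z (subset_closure hz)).eventually (closedBall_mem_nhds (h z) hη')
    filter_upwards [this] with ζ hζ
    rwa [dist_eq_norm] at hζ
  obtain ⟨ε, hε, hball⟩ := Metric.eventually_nhds_iff.1 hev
  obtain ⟨K, hK⟩ : ∃ K : En n → ℝ, K = fun ζ => (ε ^ (2 * n))⁻¹ * k0 (ε⁻¹ • (ζ - z)) := ⟨_, rfl⟩
  have hK0 : ∀ ζ, 0 ≤ K ζ := fun ζ => by
    rw [hK]; exact mul_nonneg (by positivity) (k0_nonneg _)
  have hKc : Continuous K := by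
    rw [hK]
    exact continuous_const.mul (k0_continuous.comp (by fun_prop))
  have hKz : ∀ ζ, ε ≤ ‖ζ - z‖ → K ζ = 0 := fun ζ hζ => by
    rw [hK]
    simp only
    rw [k0_zero _ (one_le_scaled hε hζ), mul_zero]
  have hout : ∀ ζ, ζ ∉ Ω → ε ≤ ‖ζ - z‖ := fun ζ hζ => by
    by_contra h1
    exact hζ (hball (by rw [dist_eq_norm]; exact not_le.1 h1)).1
  have hKer : ∀ ζ, KerG (qm (bE ε) z) z ζ = (K ζ : ℂ) := fun ζ => by
    rw [KerG_qm (bE_contDiff ε), kk_bE hε (Nq_nonneg _), hK, ← Nq_smul]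
    rfl
  have hKint : ∫ ζ in Ω, K ζ = c := by
    rw [setIntegral_eq_integral_of_forall_compl_eq_zero (fun ζ hζ => hKz ζ (hout ζ hζ)), hK,
      integral_const_mul, integral_sub_right_eq_self (fun w : En n => k0 (ε⁻¹ • w)) z,
      Measure.integral_comp_inv_smul_of_nonneg _ _ hε.le, ← hc, smul_eq_mul]
    have : Module.finrank ℝ (En n) = 2 * n := by
      rw [Module.finrank_pi_fintype]
      simp [mul_comm]
    rw [this]
    field_simp
  have hom := homotopy hq (qm_contDiff (bE_contDiff ε) z) ho hb z hf ?_ hp ?_ h hO hsub hh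
  · have i1 : IntegrableOn (fun ζ => (K ζ : ℂ) * h ζ) Ω := integrableOn_of_closure hb fun ζ hζ =>
      (continuous_ofReal.comp hKc).continuousAt.mul (hcont ζ hζ)
    have i2 : IntegrableOn (fun ζ => (K ζ : ℂ) * h z) Ω := integrableOn_of_closure hb fun ζ _ =>
      (continuous_ofReal.comp hKc).continuousAt.mul continuousAt_const
    have i3 : IntegrableOn K Ω :=
      (ContinuousOn.integrableOn_compact hb.isCompact_closure hKc.continuousOn).mono_set
        subset_closure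
    have e1 : (c : ℂ) * h z = ∫ ζ in Ω, (K ζ : ℂ) * h z := by
      rw [integral_mul_const, integral_complex_ofReal, hKint]
    rw [hom]
    simp only [hKer]
    rw [e1, ← integral_sub i1 i2]
    refine (norm_integral_le_of_norm_le (g := fun ζ => K ζ * (η / c)) (i3.mul_const _)
      (Eventually.of_forall fun ζ => ?_)).trans (le_of_eq ?_)
    · rw [← mul_sub, norm_mul, norm_real, Real.norm_of_nonneg (hK0 ζ)]
      by_cases h1 : ε ≤ ‖ζ - z‖
      · rw [hKz ζ h1, zero_mul, zero_mul]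
      · exact mul_le_mul_of_nonneg_left (hball (by rw [dist_eq_norm]; exact not_le.1 h1)).2
          (hK0 ζ)
    · rw [integral_mul_const, hKint]
      field_simp
  · intro ζ hζ
    rw [ho.frontier_eq] at hζ
    have h1 := one_le_Nq _ (one_le_scaled hε (hout ζ hζ.2))
    rw [Nq_smul] at h1
    simp only [qm, Option.elim, bE, b0_zero h1, mul_zero, ofReal_zero]
  · intro ζ _
    rw [PhiG_qm, ofReal_re]
    have h1 := b0_add_pos (t := (ε⁻¹) ^ 2 * Nq (ζ - z)) (mul_nonneg (by positivity) (Nq_nonneg _))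
    have e : bE ε (Nq (ζ - z)) + Nq (ζ - z) =
        ε ^ 2 * (b0 ((ε⁻¹) ^ 2 * Nq (ζ - z)) + (ε⁻¹) ^ 2 * Nq (ζ - z)) := by
      unfold bE
      field_simp
    rw [e]
    positivity

end Pool.Agent.H759Z.NU
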